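import Pool.Agent.Helper74.OKA.St.A12
import Pool.Agent.Helper74.OKA.St.A13
import Pool.Agent.Helper74.OKA.Kern

set_option autoImplicit false

open Set Metric Topology MeasureTheory
open scoped Manifold ContDiff

namespace Pool.Agent.Helper39.OKA

open Pool.Agent.Helper74.OKA

universe u

variable {G F : Type} [NormedAddCommGroup G] [NormedSpace ℂ G] [FiniteDimensional ℂ G]
  [NormedAddCommGroup F] [NormedSpace ℂ F] [FiniteDimensional ℂ F]

/-- A14: nonlinear splitting for convex compact sets -/
theorem ns_convex (X : Set G) (hX : IsCompact X) (hXc : Convex ℝ X) (m : G →L[ℝ] ℝ) (t : ℝ) :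
    NS F X m t := by
  intro W hW hXW
  by_cases hm : m = 0
  · subst hm
    rcases lt_trichotomy t 0 with ht | ht | ht
    · refine ⟨∅, univ, isOpen_empty, isOpen_univ, ?_, subset_univ _, by simp, ?_⟩
      · rintro x ⟨_, hx⟩
        simp only [mem_setOf_eq, ContinuousLinearMap.zero_apply] at hx
        linarith
      · intro ρ hρ
        refine ⟨1, one_pos, fun η _ => ⟨0, 0, ?_, ?_, ?_, ?_⟩⟩
        · exact ⟨by simp, by simp⟩
        · refine ⟨(differentiable_const (0 : F)).differentiableOn, fun x _ => ?_⟩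
          simpa using hρ.le
        · intro z hz; simp at hz
        · intro _; exact ⟨fun _ _ => rfl, fun _ _ => rfl⟩
    · subst ht
      refine ⟨W, W, hW, hW, ?_, ?_, inter_subset_left, ?_⟩
      · rintro x ⟨hx, _⟩; exact hXW ⟨hx, by simp⟩
      · rintro x ⟨hx, _⟩; exact hXW ⟨hx, by simp⟩
      · intro ρ hρ
        refine ⟨ρ, hρ, fun η hη => ⟨0, η, ?_, ?_, ?_, ?_⟩⟩
        · refine ⟨(differentiable_const (0 : F)).differentiableOn, fun x _ => ?_⟩
          simpa using hρ.le
        · have hsub : W ×ˢ ball (0 : F) (1 / 2) ⊆ W ×ˢ ball 0 1 :=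
            prod_mono_right (ball_subset_ball (by norm_num))
          exact ⟨hη.1.mono hsub, fun x hx => hη.2 x (hsub hx)⟩
        · intro z _ s _
          simp
        · intro h; exact ⟨fun _ _ => rfl, fun z hz => h z hz⟩
    · refine ⟨univ, ∅, isOpen_univ, isOpen_empty, subset_univ _, ?_, by simp, ?_⟩
      · rintro x ⟨_, hx⟩
        simp only [mem_setOf_eq, ContinuousLinearMap.zero_apply] at hx
        linarith
      · intro ρ hρ
        refine ⟨1, one_pos, fun η _ => ⟨0, 0, ?_, ?_, ?_, ?_⟩⟩
        · refine ⟨(differentiable_const (0 : F)).differentiableOn, fun x _ => ?_⟩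
          simpa using hρ.le
        · exact ⟨by simp, by simp⟩
        · intro z hz; simp at hz
        · intro _; exact ⟨fun _ _ => rfl, fun _ _ => rfl⟩
  · obtain ⟨ι, _, _, e, v, Q, L, i, he, hQ, hL, hre, hXP, hPW⟩ :=
      exists_poly X hX hXc m hm t W hW hXW
    have hns : NS F (Poly e Q L) (fun z => (e i z).re) t :=
      ns_poly L.length G ι e v Q L he hQ hL rfl i t
    have hfun : (fun z => (e i z).re) = m := funext hre
    rw [hfun] at hns
    obtain ⟨U₁, U₂, h1, h2, h3, h4, h5, h6⟩ := hns W hW hPW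
    exact ⟨U₁, U₂, h1, h2, (inter_subset_inter_left _ hXP).trans h3,
      (inter_subset_inter_left _ hXP).trans h4, h5, h6⟩

end Pool.Agent.Helper39.OKA
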