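import Pool.Agent.Helper74.OKA.St.B3a
import Pool.Agent.Helper74.OKA.St.B3bcd
import Pool.Agent.Helper74.OKA.Kern

set_option autoImplicit false

open Set Metric Topology MeasureTheory
open scoped Manifold ContDiff

namespace Pool.Agent.Helper39.OKA

open Pool.Agent.Helper74.OKA

universe u

namespace B4

theorem isCompact_seg : IsCompact seg := by
  have : seg = (fun x : ℝ => (x : ℂ)) '' (Icc (-1) 1) := by
    ext z
    constructor
    · rintro ⟨h1, h2⟩
      refine ⟨z.re, abs_le.1 h2, ?_⟩
      apply Complex.ext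
      · simp
      · simp [h1]
    · rintro ⟨x, hx, rfl⟩
      exact ⟨by simp, by simpa using abs_le.2 hx⟩
  rw [this]
  exact isCompact_Icc.image Complex.continuous_ofReal

theorem convex_seg : Convex ℝ seg := by
  have h1 : Convex ℝ {z : ℂ | z.im = 0} := by
    have := (convex_singleton (𝕜 := ℝ) (0 : ℝ)).is_linear_preimage Complex.imLm.isLinear
    exact this
  have h2 : Convex ℝ {z : ℂ | |z.re| ≤ 1} := by
    have := (convex_Icc (-1 : ℝ) 1).is_linear_preimage Complex.reLm.isLinear
    have h3 : {z : ℂ | |z.re| ≤ 1} = Complex.reLm ⁻¹' (Icc (-1) 1) := by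
      ext z; exact (abs_le : |z.re| ≤ 1 ↔ _)
    rw [h3]; exact this
  exact h1.inter h2

/-- the complex case -/
theorem complex_case {E : Type} [NormedAddCommGroup E] [NormedSpace ℂ E] [FiniteDimensional ℂ E]
    (V : Submodule ℝ E) (R : ℝ) (hV : ∀ x ∈ V, Complex.I • x ∈ V) :
    ∃ D : Set E, IsCompact D ∧ Convex ℝ D ∧
      D ⊆ V ∧ BallLike D ∧ ∀ x ∈ V, ‖x‖ ≤ R → x ∈ D := by
  set V' : Submodule ℂ E :=
    { carrier := V
      add_mem' := fun ha hb => V.add_mem ha hb
      zero_mem' := V.zero_mem
      smul_mem' := by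
        intro c x hx
        have : c • x = c.re • x + c.im • (Complex.I • x) := by
          conv_lhs => rw [← Complex.re_add_im c]
          rw [add_smul, mul_smul]
          rfl
        rw [this]
        exact V.add_mem (V.smul_mem _ hx) (V.smul_mem _ (hV x hx)) } with hV'
  have hmem : ∀ x, x ∈ V' ↔ x ∈ V := fun x => Iff.rfl
  obtain ⟨C, hC⟩ := V'.exists_isCompl
  let ι : EuclideanSpace ℂ (Fin (Module.finrank ℂ V')) ≃L[ℂ] V' :=
    ContinuousLinearEquiv.ofFinrankEq (by simp)
  set s : ℝ := ‖(ι.symm : V' →L[ℂ] EuclideanSpace ℂ (Fin (Module.finrank ℂ V')))‖ * |R| + 1 with hs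
  have hs0 : 0 < s := by positivity
  let e₀ : (V' × C) ≃L[ℂ] E := (Submodule.prodEquivOfIsCompl V' C hC).toContinuousLinearEquiv
  have hsne : (s : ℂ) ≠ 0 := by exact_mod_cast hs0.ne'
  let sc : EuclideanSpace ℂ (Fin (Module.finrank ℂ V')) ≃L[ℂ]
      EuclideanSpace ℂ (Fin (Module.finrank ℂ V')) :=
    ContinuousLinearEquiv.smulLeft (Units.mk0 (s : ℂ) hsne)
  let e : (EuclideanSpace ℂ (Fin (Module.finrank ℂ V')) × C) ≃L[ℂ] E :=
    (((sc.trans ι).prodCongr (ContinuousLinearEquiv.refl ℂ C))).trans e₀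
  have he : ∀ x : EuclideanSpace ℂ (Fin (Module.finrank ℂ V')) × C, e x = (s : ℂ) • (ι x.1 : E) + x.2 := by
    intro x
    show ((ι (sc x.1) : V') : E) + (x.2 : E) = _
    congr 1
    show ((ι ((s : ℂ) • x.1) : V') : E) = _
    rw [map_smul]; rfl
  refine ⟨(fun z => e z + 0) '' (closedBall 0 1 ×ˢ {0}), ?_, ?_, ?_, ?_, ?_⟩
  · apply ((isCompact_closedBall _ _).prod isCompact_singleton).image
    exact e.continuous.add continuous_const
  · have : (fun z => e z + 0) = fun z => e z := by ext z; simp
    rw [this]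
    have hl : IsLinearMap ℝ (fun z => e z) := by
      constructor
      · intro x y; exact map_add e x y
      · intro c x
        show e (c • x) = c • e x
        have h1 : c • x = (c : ℂ) • x := rfl
        have h2 : c • e x = (c : ℂ) • e x := rfl
        rw [h1, h2, map_smul]
    exact (((convex_closedBall _ _).prod (convex_singleton _)).is_linear_image hl)
  · rintro _ ⟨⟨x, y⟩, ⟨_, hy⟩, rfl⟩
    simp only [mem_singleton_iff] at hy
    subst hy
    show e (x, 0) + 0 ∈ V
    rw [he]
    simp only [ZeroMemClass.coe_zero, add_zero]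
    exact V'.smul_mem _ (ι x).2
  · exact (ballLike_closedBall.prod_zero (isCompact_closedBall _ _)).image e 0
  · intro x hx hxR
    refine ⟨((s : ℂ)⁻¹ • ι.symm ⟨x, hx⟩, 0), ⟨?_, rfl⟩, ?_⟩
    · rw [mem_closedBall, dist_zero_right, norm_smul, norm_inv]
      have h1 : ‖(s : ℂ)‖ = s := by simp [abs_of_pos hs0]
      rw [h1, inv_mul_le_iff₀ hs0, mul_one]
      have h2 : ‖ι.symm (⟨x, hx⟩ : V')‖ ≤ ‖(ι.symm : V' →L[ℂ] EuclideanSpace ℂ (Fin (Module.finrank ℂ V')))‖ * ‖(⟨x, hx⟩ : V')‖ :=
        (ι.symm : V' →L[ℂ] EuclideanSpace ℂ (Fin (Module.finrank ℂ V'))).le_opNorm _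
      have h3 : ‖(⟨x, hx⟩ : V')‖ = ‖x‖ := rfl
      rw [h3] at h2
      have h4 : ‖x‖ ≤ |R| := hxR.trans (le_abs_self R)
      calc _ ≤ ‖(ι.symm : V' →L[ℂ] EuclideanSpace ℂ (Fin (Module.finrank ℂ V')))‖ * |R| :=
            h2.trans (by gcongr)
        _ ≤ s := by rw [hs]; linarith
    · show e _ + 0 = x
      rw [he, add_zero]
      simp only [ZeroMemClass.coe_zero, add_zero, map_smul]
      show (s : ℂ) • ((s : ℂ)⁻¹ • ((ι (ι.symm ⟨x, hx⟩) : V') : E)) = x
      rw [smul_smul, mul_inv_cancel₀ hsne, one_smul, ι.apply_symm_apply]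

/-- a complex functional which is real on `V` -/
theorem exists_functional {E : Type} [NormedAddCommGroup E] [NormedSpace ℂ E]
    [FiniteDimensional ℂ E] (V : Submodule ℝ E) (v : E) (hv : v ∈ V) (hiv : Complex.I • v ∉ V) :
    ∃ lam : E →L[ℂ] ℂ, lam v = 1 ∧ ∀ x ∈ V, (lam x).im = 0 := by
  obtain ⟨μ, hμ1, hμ2⟩ := Submodule.exists_le_ker_of_notMem hiv
  have h0 : ∀ x ∈ V, μ x = 0 := fun x hx => hμ2 hx
  set μ' : E →ₗ[ℝ] ℝ := (μ (Complex.I • v))⁻¹ • μ with hμ'
  have h1 : μ' (Complex.I • v) = 1 := by
    simp [hμ', hμ1]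
  have h0' : ∀ x ∈ V, μ' x = 0 := fun x hx => by simp [hμ', h0 x hx]
  let l : E →ₗ[ℂ] ℂ :=
    { toFun := fun x => (μ' (Complex.I • x) : ℂ) + (μ' x : ℂ) * Complex.I
      map_add' := by
        intro x y
        simp only [smul_add, map_add, Complex.ofReal_add]
        ring
      map_smul' := by
        intro c x
        have e1 : c • x = c.re • x + c.im • (Complex.I • x) := by
          conv_lhs => rw [← Complex.re_add_im c]
          rw [add_smul, mul_smul]
          rfl
        have e2 : Complex.I • (c • x) = c.re • (Complex.I • x) - c.im • x := by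
          rw [e1, smul_add]
          have a1 : Complex.I • (c.re • x) = c.re • (Complex.I • x) := smul_comm _ _ _
          have a2 : Complex.I • (c.im • (Complex.I • x)) = c.im • (Complex.I • (Complex.I • x)) :=
            smul_comm _ _ _
          have a3 : Complex.I • (Complex.I • x) = - x := by
            rw [smul_smul, Complex.I_mul_I, neg_one_smul]
          rw [a1, a2, a3, smul_neg, sub_eq_add_neg]
        rw [e2, e1]
        simp only [map_add, map_sub, map_smul, smul_eq_mul, RingHom.id_apply]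
        apply Complex.ext
        · simp
        · simp }
  refine ⟨LinearMap.toContinuousLinearMap l, ?_, ?_⟩
  · show (μ' (Complex.I • v) : ℂ) + (μ' v : ℂ) * Complex.I = 1
    rw [h1, h0' v hv]; simp
  · intro x hx
    show ((μ' (Complex.I • x) : ℂ) + (μ' x : ℂ) * Complex.I).im = 0
    simp [h0' x hx]

theorem main (n : ℕ) : ∀ (E : Type) [NormedAddCommGroup E] [NormedSpace ℂ E]
    [FiniteDimensional ℂ E] (V : Submodule ℝ E) (R : ℝ), Module.finrank ℂ E = n →
    ∃ D : Set E, IsCompact D ∧ Convex ℝ D ∧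
      D ⊆ V ∧ BallLike D ∧ ∀ x ∈ V, ‖x‖ ≤ R → x ∈ D := by
  induction n with
  | zero =>
    intro E _ _ _ V R hn
    apply complex_case V R
    have : Subsingleton E := Module.finrank_zero_iff.1 hn
    intro x hx
    rw [Subsingleton.elim (Complex.I • x) x]; exact hx
  | succ n ih =>
    intro E _ _ _ V R hn
    by_cases hV : ∀ x ∈ V, Complex.I • x ∈ V
    · exact complex_case V R hV
    push Not at hV
    obtain ⟨v, hv, hiv⟩ := hV
    obtain ⟨lam, hlv, hlV⟩ := exists_functional V v hv hiv
    -- the kernel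
    set E₁ : Submodule ℂ E := LinearMap.ker lam.toLinearMap with hE₁
    have hE₁mem : ∀ x : E, x ∈ E₁ ↔ lam x = 0 := fun x => LinearMap.mem_ker
    have hrank : Module.finrank ℂ E₁ = n := by
      have h1 := LinearMap.finrank_range_add_finrank_ker lam.toLinearMap
      have h2 : LinearMap.range lam.toLinearMap = ⊤ := by
        rw [LinearMap.range_eq_top]
        intro c
        refine ⟨c • v, ?_⟩
        show lam (c • v) = c
        rw [map_smul, hlv]; simp
      rw [h2, finrank_top, Module.finrank_self, hn] at h1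
      have : Module.finrank ℂ E₁ = Module.finrank ℂ (LinearMap.ker lam.toLinearMap) := rfl
      omega
    set V₁ : Submodule ℝ E₁ := V.comap (E₁.subtype.restrictScalars ℝ) with hV₁
    have hV₁mem : ∀ x : E₁, x ∈ V₁ ↔ (x : E) ∈ V := fun x => Iff.rfl
    set R₁ : ℝ := |R| + ‖lam‖ * |R| * ‖v‖ with hR₁
    obtain ⟨D₁, hD₁c, hD₁x, hD₁V, hD₁B, hD₁R⟩ := ih E₁ V₁ R₁ hrank
    set s : ℝ := ‖lam‖ * |R| + 1 with hs
    have hs0 : 0 < s := by positivity
    have hsne : (s : ℂ) ≠ 0 := by exact_mod_cast hs0.ne'
    -- the equivalence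
    let el : (E₁ × ℂ) ≃ₗ[ℂ] E :=
      { toFun := fun x => (x.1 : E) + (s * x.2) • v
        map_add' := by
          intro x y
          simp only [Prod.fst_add, Prod.snd_add, Submodule.coe_add, mul_add, add_smul]
          abel
        map_smul' := by
          intro c x
          simp only [Prod.smul_fst, Prod.smul_snd, Submodule.coe_smul, RingHom.id_apply, smul_add,
            smul_smul, smul_eq_mul]
          congr 2
          ring
        invFun := fun z => (⟨z - lam z • v, by
            rw [hE₁mem, map_sub, map_smul, hlv]; simp⟩, lam z / s)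
        left_inv := by
          rintro ⟨⟨x, hx⟩, w⟩
          have hx' : lam x = 0 := (hE₁mem x).1 hx
          have h1 : lam (x + (s * w) • v) = s * w := by
            rw [map_add, map_smul, hx', hlv]; simp
          apply Prod.ext
          · apply Subtype.ext
            show x + (s * w) • v - lam (x + (s * w) • v) • v = x
            rw [h1]; abel
          · show lam (x + (s * w) • v) / s = w
            rw [h1]; field_simp
        right_inv := by
          intro z
          show z - lam z • v + (s * (lam z / s)) • v = z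
          have : (s : ℂ) * (lam z / s) = lam z := by field_simp
          rw [this]; abel }
    let e : (E₁ × ℂ) ≃L[ℂ] E := el.toContinuousLinearEquiv
    have he : ∀ x : E₁ × ℂ, e x = (x.1 : E) + (s * x.2) • v := fun x => rfl
    refine ⟨(fun z => e z + 0) '' (D₁ ×ˢ seg), ?_, ?_, ?_, ?_, ?_⟩
    · exact (hD₁c.prod isCompact_seg).image (e.continuous.add continuous_const)
    · have : (fun z => e z + 0) = fun z => e z := by ext z; simp
      rw [this]
      have hl : IsLinearMap ℝ (fun z => e z) := by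
        constructor
        · intro x y; exact map_add e x y
        · intro c x
          show e (c • x) = c • e x
          have h1 : c • x = (c : ℂ) • x := rfl
          have h2 : c • e x = (c : ℂ) • e x := rfl
          rw [h1, h2, map_smul]
      exact ((hD₁x.prod convex_seg).is_linear_image hl)
    · rintro _ ⟨⟨x, w⟩, ⟨hx, hw⟩, rfl⟩
      show e (x, w) + 0 ∈ V
      rw [he, add_zero]
      have h1 : (x : E) ∈ V := (hV₁mem x).1 (hD₁V hx)
      have h2 : (s * w : ℂ) • v = (s * w.re : ℝ) • v := by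
        have : (s * w : ℂ) = ((s * w.re : ℝ) : ℂ) := by
          have hw0 : w.im = 0 := hw.1
          apply Complex.ext
          · simp
          · simp [hw0]
        rw [this]; rfl
      show (x : E) + (s * w : ℂ) • v ∈ V
      rw [h2]
      exact V.add_mem h1 (V.smul_mem _ hv)
    · exact (hD₁B.prod_seg hD₁c).image e 0
    · intro x hx hxR
      have hx4 : ‖x‖ ≤ |R| := hxR.trans (le_abs_self R)
      have hlx : ‖lam x‖ ≤ ‖lam‖ * |R| := (lam.le_opNorm x).trans (by gcongr)
      have him : (lam x).im = 0 := hlV x hx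
      have hre : lam x = ((lam x).re : ℂ) := by
        apply Complex.ext
        · simp
        · simp [him]
      have hsm : lam x • v = (lam x).re • v := by
        conv_lhs => rw [hre]
        rfl
      refine ⟨e.symm x, ⟨?_, ?_⟩, ?_⟩
      · apply hD₁R
        · rw [hV₁mem]
          show x - lam x • v ∈ V
          rw [hsm]
          exact V.sub_mem hx (V.smul_mem _ hv)
        · show ‖x - lam x • v‖ ≤ R₁
          calc ‖x - lam x • v‖ ≤ ‖x‖ + ‖lam x • v‖ := norm_sub_le _ _
            _ = ‖x‖ + ‖lam x‖ * ‖v‖ := by rw [norm_smul]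
            _ ≤ |R| + ‖lam‖ * |R| * ‖v‖ := by gcongr
      · show (lam x / s).im = 0 ∧ |(lam x / s).re| ≤ 1
        constructor
        · rw [Complex.div_ofReal_im, him, zero_div]
        · rw [Complex.div_ofReal_re, abs_div, abs_of_pos hs0, div_le_one hs0]
          calc |(lam x).re| ≤ ‖lam x‖ := Complex.abs_re_le_norm _
            _ ≤ ‖lam‖ * |R| := hlx
            _ ≤ s := by rw [hs]; linarith
      · show e (e.symm x) + 0 = x
        rw [add_zero, e.apply_symm_apply]

end B4

variable {E : Type} [NormedAddCommGroup E] [NormedSpace ℂ E] [FiniteDimensional ℂ E]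

/-- B4 (uses B3) -/
theorem exists_ballLike (V : Submodule ℝ E) (R : ℝ) : ∃ D : Set E, IsCompact D ∧ Convex ℝ D ∧
    D ⊆ V ∧ BallLike D ∧ ∀ x ∈ V, ‖x‖ ≤ R → x ∈ D :=
  B4.main (Module.finrank ℂ E) E V R rfl

end Pool.Agent.Helper39.OKA
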