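import Pool.Agent.Helper74.OKA.St.A10
import Pool.Agent.Helper74.OKA.St.C1
import Pool.Agent.Helper74.OKA.St.C3
import Pool.Agent.Helper74.OKA.St.C9
import Pool.Agent.Helper74.OKA.Kern

set_option autoImplicit false

open Set Metric Topology MeasureTheory
open scoped Manifold ContDiff

namespace Pool.Agent.Helper39.OKA

open Pool.Agent.Helper74.OKA

universe u

variable (F : Type) [NormedAddCommGroup F] [NormedSpace ℂ F] [FiniteDimensional ℂ F]
  {Y : Type u} [MetricSpace Y] [ChartedSpace F Y] [IsManifold 𝓘(ℂ, F) 1 Y]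
  {E : Type} [NormedAddCommGroup E] [NormedSpace ℂ E] [FiniteDimensional ℂ E]

namespace C10

/-- real coordinates control the norm -/
theorem exists_coords (E : Type) [NormedAddCommGroup E] [NormedSpace ℂ E]
    [FiniteDimensional ℂ E] :
    ∃ (n : ℕ) (m : Fin n → (E →L[ℝ] ℝ)) (C : ℝ), 0 < C ∧
      ∀ x : E, ∀ δ : ℝ, 0 ≤ δ → (∀ i, |m i x| ≤ δ) → ‖x‖ ≤ C * δ := by
  have : FiniteDimensional ℝ E := FiniteDimensional.complexToReal E
  set b := Module.finBasis ℝ E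
  set e : E ≃L[ℝ] (Fin (Module.finrank ℝ E) → ℝ) := b.equivFunL with he
  refine ⟨Module.finrank ℝ E,
    fun i => (ContinuousLinearMap.proj (R := ℝ) (φ := fun _ => ℝ) i).comp (e : E →L[ℝ] _),
    ‖(e.symm : (Fin (Module.finrank ℝ E) → ℝ) →L[ℝ] E)‖ + 1, by positivity, ?_⟩
  intro x δ hδ hx
  have h1 : ‖e x‖ ≤ δ := by
    rw [pi_norm_le_iff_of_nonneg hδ]
    intro i
    exact hx i
  have h2 : x = (e.symm : (Fin (Module.finrank ℝ E) → ℝ) →L[ℝ] E) (e x) := by simp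
  calc ‖x‖ = ‖(e.symm : (Fin (Module.finrank ℝ E) → ℝ) →L[ℝ] E) (e x)‖ := by rw [← h2]
    _ ≤ ‖(e.symm : (Fin (Module.finrank ℝ E) → ℝ) →L[ℝ] E)‖ * ‖e x‖ :=
        ContinuousLinearMap.le_opNorm _ _
    _ ≤ (‖(e.symm : (Fin (Module.finrank ℝ E) → ℝ) →L[ℝ] E)‖ + 1) * δ := by
        apply mul_le_mul (by linarith) h1 (norm_nonneg _) (by positivity)

theorem hasSpray_empty (f : E → Y) : HasSpray F f (∅ : Set E) := by
  refine hasSpray_of_etale F f ∅ isCompact_empty ∅ 1 isOpen_empty (subset_refl _) one_pos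
    (fun x => f x.1) ?_ ?_ ?_
  · intro x hx; simp at hx
  · intro z hz; simp at hz
  · intro z hz; simp at hz

end C10

variable (Y) in
/-- C10 (uses A10, C1, C3, C9) -/
theorem hasSprays : HasSprays F Y := by
  intro E _ _ _ X f U hX hXc hU hXU hf
  obtain ⟨n, m, C, hC, hm⟩ := C10.exists_coords E
  -- local sprays
  have hloc : ∀ z₀ : X, ∃ (O : Set E) (r : ℝ) (s : E × F → Y), IsOpen O ∧ (z₀ : E) ∈ O ∧ O ⊆ U ∧
      0 < r ∧ MDifferentiableOn 𝓘(ℂ, E × F) 𝓘(ℂ, F) s (O ×ˢ ball 0 r) ∧ (∀ z ∈ O, s (z, 0) = f z) ∧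
      ∀ z ∈ O, ∀ t ∈ ball (0 : F) r, EtaleAt F s (z, t) :=
    fun z₀ => etaleAt_chart F f U hU hf z₀ (hXU z₀.2)
  choose O r s hO hzO hOU hr hs hcore het using hloc
  obtain ⟨ε, hε, hL⟩ := lebesgue_number_lemma_of_metric (s := X) hX hO
    (fun x hx => mem_iUnion.2 ⟨⟨x, hx⟩, hzO ⟨x, hx⟩⟩)
  set δ : ℝ := ε / (2 * C) with hδ
  have hδ0 : 0 < δ := by positivity
  refine bisect_induction (fun K => IsCompact K ∧ Convex ℝ K) (fun K => HasSpray F f K) X
    ((List.finRange n).map (fun i => (m i : E → ℝ))) δ hδ0 ?_ ?_ ?_ ?_ ⟨hX, hXc⟩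
  · rintro K ⟨hK, hKc⟩ m' hm' t
    obtain ⟨i, _, rfl⟩ := List.mem_map.1 hm'
    refine ⟨⟨hK.inter_right (isClosed_le (m i).continuous continuous_const),
      hKc.inter (convex_halfSpace_le (m i).toLinearMap.isLinear t)⟩,
      ⟨hK.inter_right (isClosed_le continuous_const (m i).continuous),
      hKc.inter (convex_halfSpace_ge (m i).toLinearMap.isLinear t)⟩⟩
  · rintro K ⟨hK, hKc⟩ hKX hsm
    rcases K.eq_empty_or_nonempty with rfl | ⟨x, hx⟩
    · exact C10.hasSpray_empty F f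
    · obtain ⟨z₀, hz₀⟩ := hL x (hKX hx)
      have hKO : K ⊆ O z₀ := by
        intro y hy
        apply hz₀
        rw [mem_ball, dist_eq_norm]
        have h1 : ‖y - x‖ ≤ C * δ := by
          apply hm (y - x) δ hδ0.le
          intro i
          rw [map_sub]
          exact hsm (m i) (List.mem_map.2 ⟨i, List.mem_finRange i, rfl⟩) y hy x hx
        have h2 : C * δ = ε / 2 := by rw [hδ]; field_simp
        linarith
      exact hasSpray_of_etale F f K hK (O z₀) (r z₀) (hO z₀) hKO (hr z₀) (s z₀) (hs z₀) (hcore z₀)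
        (fun z hz => het z₀ z (hKO hz) 0 (mem_ball_self (hr z₀)))
  · rintro K ⟨hK, hKc⟩ hKX m' hm' t h1 h2
    obtain ⟨i, _, rfl⟩ := List.mem_map.1 hm'
    exact spray_merge F f U hU hf K hK hKc (hKX.trans hXU) (m i) t h1 h2
  · intro m' hm'
    obtain ⟨i, _, rfl⟩ := List.mem_map.1 hm'
    obtain ⟨B, hB⟩ := hX.exists_bound_of_continuousOn (f := fun x => m i x) (m i).continuous.continuousOn
    exact ⟨B, fun x hx => by simpa using hB x hx⟩

end Pool.Agent.Helper39.OKA
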