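import Pool.Agent.Helper74.OKA.St.A03
import Pool.Agent.Helper74.OKA.Kern

set_option autoImplicit false

open Set Metric Topology MeasureTheory
open scoped Manifold ContDiff

namespace Pool.Agent.Helper39.OKA

open Pool.Agent.Helper74.OKA

universe u

section C

variable (F : Type) [NormedAddCommGroup F] [NormedSpace ℂ F] [FiniteDimensional ℂ F]
  {Y : Type u} [MetricSpace Y] [ChartedSpace F Y] [IsManifold 𝓘(ℂ, F) 1 Y]
  {E : Type} [NormedAddCommGroup E] [NormedSpace ℂ E] [FiniteDimensional ℂ E]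

namespace C2

/-- local inverse of `(z,t) ↦ (z, τ (z,t))` -/
theorem exists_inverse {F : Type} [NormedAddCommGroup F] [NormedSpace ℂ F] [FiniteDimensional ℂ F]
    {z₀ : E} {t₀ : F} (τ : E × F → F) (O : Set (E × F)) (hO : IsOpen O) (h₀ : (z₀, t₀) ∈ O)
    (hτ : DifferentiableOn ℂ τ O)
    (hD : Function.Bijective (fderiv ℂ (fun t => τ (z₀, t)) t₀)) :
    ∃ (e : OpenPartialHomeomorph (E × F) (E × F)) (D : Set (E × F)),
      (∀ x, e x = (x.1, τ x)) ∧ (z₀, t₀) ∈ e.source ∧ IsOpen D ∧ (z₀, τ (z₀, t₀)) ∈ D ∧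
      DifferentiableOn ℂ e.symm D := by
  have : CompleteSpace E := FiniteDimensional.complete ℂ E
  have : CompleteSpace F := FiniteDimensional.complete ℂ F
  set T : E × F → E × F := fun x => (x.1, τ x) with hT
  have hTd : DifferentiableOn ℂ T O := differentiable_fst.differentiableOn.prodMk hτ
  have hTc : ContDiffAt ℂ 1 T (z₀, t₀) :=
    (contDiffOn_of_differentiableOn hO hTd 1).contDiffAt (hO.mem_nhds h₀)
  set A : E × F →L[ℂ] F := fderiv ℂ τ (z₀, t₀) with hA
  have hτa : HasFDerivAt τ A (z₀, t₀) := (hτ.differentiableAt (hO.mem_nhds h₀)).hasFDerivAt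
  have hTf : HasFDerivAt T ((ContinuousLinearMap.fst ℂ E F).prod A) (z₀, t₀) :=
    hasFDerivAt_fst.prodMk hτa
  have hA2 : HasFDerivAt (fun t => τ (z₀, t)) (A.comp (ContinuousLinearMap.inr ℂ E F)) t₀ := by
    have h2 : HasFDerivAt (fun t : F => (z₀, t)) (ContinuousLinearMap.inr ℂ E F) t₀ :=
      hasFDerivAt_prodMk_right z₀ t₀
    exact HasFDerivAt.comp t₀ (f := fun t : F => (z₀, t)) (g := τ) hτa h2
  rw [hA2.fderiv] at hD
  have hbij : Function.Bijective ((ContinuousLinearMap.fst ℂ E F).prod A : E × F →L[ℂ] E × F) := by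
    constructor
    · rw [injective_iff_map_eq_zero]
      rintro ⟨z, t⟩ h
      have h1 : z = 0 := congrArg Prod.fst h
      have h2 : A (z, t) = 0 := congrArg Prod.snd h
      subst h1
      have h3 : (A.comp (ContinuousLinearMap.inr ℂ E F)) t = 0 := by simpa using h2
      have h4 := (injective_iff_map_eq_zero _).1 hD.1 t h3
      rw [h4]; rfl
    · rintro ⟨z, y⟩
      obtain ⟨t, ht⟩ := hD.2 (y - A (z, 0))
      refine ⟨(z, t), ?_⟩
      have h5 : A (z, t) = A (z, 0) + A (0, t) := by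
        rw [← map_add]; simp
      have h6 : A (0, t) = y - A (z, 0) := by simpa using ht
      have h7 : A (z, t) = y := by rw [h5, h6]; abel
      simp [h7]
  set T' : (E × F) ≃L[ℂ] (E × F) :=
    (LinearEquiv.ofBijective
      ((ContinuousLinearMap.fst ℂ E F).prod A : E × F →L[ℂ] E × F).toLinearMap hbij).toContinuousLinearEquiv
  have hT' : HasFDerivAt T (T' : E × F →L[ℂ] E × F) (z₀, t₀) := by
    have : (T' : E × F →L[ℂ] E × F) = (ContinuousLinearMap.fst ℂ E F).prod A := by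
      ext x <;> rfl
    rw [this]; exact hTf
  set e := hTc.toOpenPartialHomeomorph T hT' one_ne_zero with he
  have hinv : ContDiffAt ℂ 1 (hTc.localInverse hT' one_ne_zero) (T (z₀, t₀)) :=
    hTc.to_localInverse hT' one_ne_zero
  have hsymm : ∀ x, e.symm x = hTc.localInverse hT' one_ne_zero x := fun x => rfl
  have hev : ∀ᶠ x in 𝓝 (T (z₀, t₀)), ContDiffAt ℂ 1 (hTc.localInverse hT' one_ne_zero) x :=
    hinv.eventually (by simp)
  obtain ⟨D, hDs, hDo, hDm⟩ := _root_.eventually_nhds_iff.1 hev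
  refine ⟨e, D, fun x => rfl, hTc.mem_toOpenPartialHomeomorph_source hT' one_ne_zero, hDo, hDm, ?_⟩
  intro x hx
  exact ((hDs x hx).differentiableAt (by simp)).differentiableWithinAt

end C2

/-- C2: reparametrisation of an étale family -/
theorem EtaleAt.reparam {s : E × F → Y} {z₀ : E} {t₀ : F} (τ : E × F → F)
    (h : EtaleAt F s (z₀, τ (z₀, t₀))) (O : Set (E × F)) (hO : IsOpen O) (h₀ : (z₀, t₀) ∈ O)
    (hτ : DifferentiableOn ℂ τ O)
    (hD : Function.Bijective (fderiv ℂ (fun t => τ (z₀, t)) t₀)) :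
    EtaleAt F (fun x => s (x.1, τ x)) (z₀, t₀) := by
  obtain ⟨Os, N, Θ, hOs, hx₀, hN, hΘ, h1, h2, h3⟩ := h
  obtain ⟨e, D, heq, hsrc, hDo, hDm, hDd⟩ := C2.exists_inverse τ O hO h₀ hτ hD
  -- the new domain
  have hTc : ContinuousOn (fun x : E × F => (x.1, τ x)) O :=
    continuous_fst.continuousOn.prodMk hτ.continuousOn
  set O' : Set (E × F) := e.source ∩ (O ∩ (fun x : E × F => (x.1, τ x)) ⁻¹' (D ∩ Os)) with hO'
  have hO'o : IsOpen O' := e.open_source.inter (hTc.isOpen_inter_preimage hO (hDo.inter hOs))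
  set D₂ : Set (E × F) := e.target ∩ e.symm ⁻¹' O' with hD₂
  have hD₂o : IsOpen D₂ := e.symm.isOpen_inter_preimage hO'o
  have hD₂D : ∀ x ∈ D₂, x ∈ D ∧ x ∈ Os := by
    rintro x ⟨hxt, hxO⟩
    have hx : e (e.symm x) = x := e.right_inv hxt
    rw [heq] at hx
    have := hxO.2.2
    simp only [mem_preimage] at this
    rw [hx] at this
    exact this
  set N' : Set (E × Y) := N ∩ (fun x : E × Y => (x.1, Θ x)) ⁻¹' D₂ with hN'
  have hΘc : ContinuousOn (fun x : E × Y => (x.1, Θ x)) N :=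
    continuous_fst.continuousOn.prodMk hΘ
  have hN'o : IsOpen N' := hΘc.isOpen_inter_preimage hN hD₂o
  refine ⟨O', N', fun x => (e.symm (x.1, Θ x)).2, hO'o, ⟨hsrc, h₀, hDm, hx₀⟩, hN'o, ?_, ?_, ?_, ?_⟩
  · have : ContinuousOn e.symm D₂ := e.continuousOn_symm.mono inter_subset_left
    exact (this.comp (hΘc.mono inter_subset_left) (fun x hx => hx.2)).snd
  · rintro z t hzt
    have hO1 : (z, τ (z, t)) ∈ Os := hzt.2.2.2
    obtain ⟨ha, hb⟩ := h1 z (τ (z, t)) hO1
    have hez : e (z, t) = (z, τ (z, t)) := heq _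
    have hsym : e.symm (z, τ (z, t)) = (z, t) := by rw [← hez]; exact e.left_inv hzt.1
    refine ⟨⟨ha, ?_⟩, ?_⟩
    · show (z, Θ (z, s (z, τ (z, t)))) ∈ D₂
      rw [hb]
      refine ⟨?_, ?_⟩
      · rw [← hez]; exact e.map_source hzt.1
      · show e.symm (z, τ (z, t)) ∈ O'
        rw [hsym]; exact hzt
    · show (e.symm (z, Θ (z, s (z, τ (z, t))))).2 = t
      rw [hb, hsym]
  · rintro z y ⟨hzy, hzy2⟩
    obtain ⟨ha, hb⟩ := h2 z y hzy
    have hxt : (z, Θ (z, y)) ∈ D₂ := hzy2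
    have hx : e (e.symm (z, Θ (z, y))) = (z, Θ (z, y)) := e.right_inv hxt.1
    rw [heq] at hx
    have hx1 : (e.symm (z, Θ (z, y))).1 = z := congrArg Prod.fst hx
    have hx2 : τ (e.symm (z, Θ (z, y))) = Θ (z, y) := congrArg Prod.snd hx
    have hpair : (z, (e.symm (z, Θ (z, y))).2) = e.symm (z, Θ (z, y)) := by
      apply Prod.ext
      · exact hx1.symm
      · rfl
    refine ⟨?_, ?_⟩
    · show (z, (e.symm (z, Θ (z, y))).2) ∈ O'
      rw [hpair]; exact hxt.2
    · show s (z, τ (z, (e.symm (z, Θ (z, y))).2)) = y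
      rw [hpair, hx2, hb]
  · intro Z _ _ _ DZ q g hDZ hq hg hqg
    have hΘd := h3 Z DZ q g hDZ hq hg (fun x hx => (hqg x hx).1)
    have hpd : DifferentiableOn ℂ (fun x => (q x, Θ (q x, g x))) DZ := hq.prodMk hΘd
    have hsd : DifferentiableOn ℂ (fun x => e.symm (q x, Θ (q x, g x))) DZ :=
      hDd.comp hpd (fun x hx => (hD₂D _ (hqg x hx).2).1)
    exact hsd.snd

end C

end Pool.Agent.Helper39.OKA
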